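import Mathlib

/-!
# Finite sets of cells of the square grid without cells of degree two

The upper bound for the size of a set of cells of `ℤ × ℤ` with `4 n` exposed sides and no cell of
degree two.
-/

set_option autoImplicit false

open Finset

namespace Pool.Agent.K6.helper20.HD

/-- the cells which share a side with `w` -/
def nbr (w w' : ℤ × ℤ) : Prop :=
  w' = (w.1 + 1, w.2) ∨ w' = (w.1 - 1, w.2) ∨ w' = (w.1, w.2 + 1) ∨ w' = (w.1, w.2 - 1)

instance (w : ℤ × ℤ) : DecidablePred (nbr w) := fun w' => by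
  unfold nbr
  infer_instance

/-- indicator of `Q` -/
def ind (Q : Finset (ℤ × ℤ)) (w : ℤ × ℤ) : ℕ := if w ∈ Q then 1 else 0

/-- the degree of `w` in `Q` -/
def dg (Q : Finset (ℤ × ℤ)) (w : ℤ × ℤ) : ℕ :=
  ind Q (w.1 + 1, w.2) + ind Q (w.1 - 1, w.2) + ind Q (w.1, w.2 + 1) + ind Q (w.1, w.2 - 1)

theorem dg_eq (Q : Finset (ℤ × ℤ)) (w : ℤ × ℤ) : (Q.filter (nbr w)).card = dg Q w := by
  have h : Q.filter (nbr w) =
      ({(w.1 + 1, w.2), (w.1 - 1, w.2), (w.1, w.2 + 1), (w.1, w.2 - 1)} :
        Finset (ℤ × ℤ)).filter (fun v => v ∈ Q) := by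
    ext v
    simp only [mem_filter, mem_insert, mem_singleton, nbr]
    tauto
  rw [h, Finset.card_filter]
  rw [Finset.sum_insert, Finset.sum_insert, Finset.sum_insert, Finset.sum_singleton]
  · unfold dg ind
    ring
  · simp only [mem_singleton, Prod.mk.injEq]
    omega
  · simp only [mem_insert, mem_singleton, Prod.mk.injEq]
    omega
  · simp only [mem_insert, mem_singleton, Prod.mk.injEq]
    omega

theorem ind_le (Q : Finset (ℤ × ℤ)) (w : ℤ × ℤ) : ind Q w ≤ 1 := by
  unfold ind
  split_ifs <;> omega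

theorem dg_le (Q : Finset (ℤ × ℤ)) (w : ℤ × ℤ) : dg Q w ≤ 4 := by
  unfold dg
  have h1 := ind_le Q (w.1 + 1, w.2)
  have h2 := ind_le Q (w.1 - 1, w.2)
  have h3 := ind_le Q (w.1, w.2 + 1)
  have h4 := ind_le Q (w.1, w.2 - 1)
  omega

theorem sum_ind (A B : Finset (ℤ × ℤ)) (s : ℤ × ℤ → ℤ × ℤ) :
    ∑ v ∈ A, ind B (s v) = (A.filter (fun v => s v ∈ B)).card := by
  rw [Finset.card_filter]
  rfl

/-- symmetry in one direction -/
theorem sum_shift (A B : Finset (ℤ × ℤ)) (s t : ℤ × ℤ → ℤ × ℤ) (h1 : ∀ v, t (s v) = v)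
    (h2 : ∀ v, s (t v) = v) : ∑ v ∈ A, ind B (s v) = ∑ w ∈ B, ind A (t w) := by
  rw [sum_ind, sum_ind]
  refine Finset.card_bij (fun v _ => s v) ?_ ?_ ?_
  · intro v hv
    rw [mem_filter] at hv ⊢
    exact ⟨hv.2, by rw [h1]; exact hv.1⟩
  · intro v _ w _ hvw
    rw [← h1 v, hvw, h1]
  · intro w hw
    rw [mem_filter] at hw
    exact ⟨t w, mem_filter.2 ⟨hw.2, by rw [h2]; exact hw.1⟩, h2 w⟩

theorem sum_dg (A B : Finset (ℤ × ℤ)) : ∑ v ∈ A, dg B v =
    ∑ v ∈ A, ind B (v.1 + 1, v.2) + ∑ v ∈ A, ind B (v.1 - 1, v.2) +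
    ∑ v ∈ A, ind B (v.1, v.2 + 1) + ∑ v ∈ A, ind B (v.1, v.2 - 1) := by
  unfold dg
  rw [Finset.sum_add_distrib, Finset.sum_add_distrib, Finset.sum_add_distrib]

theorem sum_symm (A B : Finset (ℤ × ℤ)) : ∑ v ∈ A, dg B v = ∑ w ∈ B, dg A w := by
  rw [sum_dg, sum_dg]
  have e1 := sum_shift A B (fun v => (v.1 + 1, v.2)) (fun v => (v.1 - 1, v.2))
    (fun v => by simp) (fun v => by simp)
  have e2 := sum_shift A B (fun v => (v.1 - 1, v.2)) (fun v => (v.1 + 1, v.2))
    (fun v => by simp) (fun v => by simp)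
  have e3 := sum_shift A B (fun v => (v.1, v.2 + 1)) (fun v => (v.1, v.2 - 1))
    (fun v => by simp) (fun v => by simp)
  have e4 := sum_shift A B (fun v => (v.1, v.2 - 1)) (fun v => (v.1, v.2 + 1))
    (fun v => by simp) (fun v => by simp)
  rw [e1, e2, e3, e4]
  ring

/-- the exposed sides in one direction -/
theorem exposed (L : Finset (ℤ × ℤ)) (s : ℤ × ℤ → ℤ × ℤ) (p h : ℤ × ℤ → ℤ)
    (hp : ∀ v, p (s v) = p v) (hh : ∀ v, h (s v) = h v + 1) :
    ∑ v ∈ L, ind L (s v) + (L.image p).card ≤ L.card := by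
  have h1 : (L.image p).card ≤ (L.filter (fun v => ¬ s v ∈ L)).card := by
    refine le_trans (Finset.card_le_card ?_) (Finset.card_image_le (f := p))
    intro c hc
    obtain ⟨v0, hv0, rfl⟩ := mem_image.1 hc
    obtain ⟨v, hv, hmax⟩ := (L.filter (fun v => p v = p v0)).exists_max_image h
      ⟨v0, mem_filter.2 ⟨hv0, rfl⟩⟩
    rw [mem_filter] at hv
    refine mem_image.2 ⟨v, mem_filter.2 ⟨hv.1, fun hs => ?_⟩, hv.2⟩
    have := hmax (s v) (mem_filter.2 ⟨hs, by rw [hp]; exact hv.2⟩)
    rw [hh] at this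
    omega
  rw [sum_ind]
  have h2 := Finset.card_filter_add_card_filter_not (s := L) (fun v => s v ∈ L)
  omega

theorem perim (L : Finset (ℤ × ℤ)) :
    ∑ v ∈ L, dg L v + 2 * (L.image Prod.fst).card + 2 * (L.image Prod.snd).card ≤ 4 * L.card := by
  rw [sum_dg]
  have e1 := exposed L (fun v => (v.1 + 1, v.2)) Prod.snd Prod.fst (fun v => rfl) (fun v => rfl)
  have e2 := exposed L (fun v => (v.1 - 1, v.2)) Prod.snd (fun v => -v.1) (fun v => rfl)
    (fun v => by simp only; ring)
  have e3 := exposed L (fun v => (v.1, v.2 + 1)) Prod.fst Prod.snd (fun v => rfl) (fun v => rfl)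
  have e4 := exposed L (fun v => (v.1, v.2 - 1)) Prod.fst (fun v => -v.2) (fun v => rfl)
    (fun v => by simp only; ring)
  omega

theorem card_le_mul (L : Finset (ℤ × ℤ)) :
    L.card ≤ (L.image Prod.fst).card * (L.image Prod.snd).card := by
  rw [← Finset.card_product]
  refine Finset.card_le_card fun v hv => ?_
  rw [mem_product]
  exact ⟨mem_image_of_mem _ hv, mem_image_of_mem _ hv⟩

theorem dg_add (Q L : Finset (ℤ × ℤ)) (hL : L ⊆ Q) (w : ℤ × ℤ) :
    dg Q w = dg L w + dg (Q \ L) w := by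
  have h : ∀ v, ind Q v = ind L v + ind (Q \ L) v := by
    intro v
    unfold ind
    by_cases h1 : v ∈ L
    · simp [h1, hL h1]
    · by_cases h2 : v ∈ Q <;> simp [h1, h2]
  unfold dg
  rw [h, h, h, h]
  ring

/-- the four corners -/
theorem corners (L : Finset (ℤ × ℤ)) (hL : 2 ≤ L.card) : ∃ w : ℤ × ℤ → ℕ, ∑ v ∈ L, w v = 4 ∧
    ∀ v ∈ L, 1 ≤ w v → w v + dg L v ≤ 3 := by
  have hne : L.Nonempty := Finset.card_pos.1 (by omega)
  obtain ⟨c1, m1, h1⟩ := L.exists_min_image (fun v => toLex (v.1, v.2)) hne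
  obtain ⟨c2, m2, h2⟩ := L.exists_max_image (fun v => toLex (v.1, v.2)) hne
  obtain ⟨c3, m3, h3⟩ := L.exists_min_image (fun v => toLex (v.1, -v.2)) hne
  obtain ⟨c4, m4, h4⟩ := L.exists_max_image (fun v => toLex (v.1, -v.2)) hne
  simp only [Prod.Lex.toLex_le_toLex] at h1 h2 h3 h4
  obtain ⟨a, ha, b, hb, hab⟩ := Finset.one_lt_card.1 (by omega : 1 < L.card)
  have n12 : c1 ≠ c2 := by
    rintro rfl
    apply hab
    have x1 := h1 a ha
    have x2 := h2 a ha
    have x3 := h1 b hb
    have x4 := h2 b hb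
    ext <;> omega
  have n34 : c3 ≠ c4 := by
    rintro rfl
    apply hab
    have x1 := h3 a ha
    have x2 := h4 a ha
    have x3 := h3 b hb
    have x4 := h4 b hb
    ext <;> omega
  refine ⟨fun v => (if v = c1 then 1 else 0) + (if v = c2 then 1 else 0) +
    (if v = c3 then 1 else 0) + (if v = c4 then 1 else 0), ?_, ?_⟩
  · rw [Finset.sum_add_distrib, Finset.sum_add_distrib, Finset.sum_add_distrib]
    simp only [Finset.sum_ite_eq', m1, m2, m3, m4, if_true]
  · intro v hv hw
    have f1 : v = c1 → ind L (v.1 - 1, v.2) = 0 ∧ ind L (v.1, v.2 - 1) = 0 := by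
      rintro rfl
      unfold ind
      constructor
      · rw [if_neg]
        intro hm
        have := h1 _ hm
        simp only at this
        omega
      · rw [if_neg]
        intro hm
        have := h1 _ hm
        simp only at this
        omega
    have f2 : v = c2 → ind L (v.1 + 1, v.2) = 0 ∧ ind L (v.1, v.2 + 1) = 0 := by
      rintro rfl
      unfold ind
      constructor
      · rw [if_neg]
        intro hm
        have := h2 _ hm
        simp only at this
        omega
      · rw [if_neg]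
        intro hm
        have := h2 _ hm
        simp only at this
        omega
    have f3 : v = c3 → ind L (v.1 - 1, v.2) = 0 ∧ ind L (v.1, v.2 + 1) = 0 := by
      rintro rfl
      unfold ind
      constructor
      · rw [if_neg]
        intro hm
        have := h3 _ hm
        simp only at this
        omega
      · rw [if_neg]
        intro hm
        have := h3 _ hm
        simp only at this
        omega
    have f4 : v = c4 → ind L (v.1 + 1, v.2) = 0 ∧ ind L (v.1, v.2 - 1) = 0 := by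
      rintro rfl
      unfold ind
      constructor
      · rw [if_neg]
        intro hm
        have := h4 _ hm
        simp only at this
        omega
      · rw [if_neg]
        intro hm
        have := h4 _ hm
        simp only at this
        omega
    have g1 := ind_le L (v.1 + 1, v.2)
    have g2 := ind_le L (v.1 - 1, v.2)
    have g3 := ind_le L (v.1, v.2 + 1)
    have g4 := ind_le L (v.1, v.2 - 1)
    have k12 : (if v = c1 then 1 else 0) + (if v = c2 then 1 else 0) ≤ 1 := by
      split_ifs with x y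
      · exact absurd (x.symm.trans y) n12
      all_goals omega
    have k34 : (if v = c3 then 1 else 0) + (if v = c4 then 1 else 0) ≤ 1 := by
      split_ifs with x y
      · exact absurd (x.symm.trans y) n34
      all_goals omega
    have r1 : (if v = c1 then 1 else 0) + ind L (v.1 - 1, v.2) ≤ 1 ∧
        (if v = c1 then 1 else 0) + ind L (v.1, v.2 - 1) ≤ 1 := by
      split_ifs with x
      · have := f1 x
        omega
      · omega
    have r2 : (if v = c2 then 1 else 0) + ind L (v.1 + 1, v.2) ≤ 1 ∧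
        (if v = c2 then 1 else 0) + ind L (v.1, v.2 + 1) ≤ 1 := by
      split_ifs with x
      · have := f2 x
        omega
      · omega
    have r3 : (if v = c3 then 1 else 0) + ind L (v.1 - 1, v.2) ≤ 1 ∧
        (if v = c3 then 1 else 0) + ind L (v.1, v.2 + 1) ≤ 1 := by
      split_ifs with x
      · have := f3 x
        omega
      · omega
    have r4 : (if v = c4 then 1 else 0) + ind L (v.1 + 1, v.2) ≤ 1 ∧
        (if v = c4 then 1 else 0) + ind L (v.1, v.2 - 1) ≤ 1 := by
      split_ifs with x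
      · have := f4 x
        omega
      · omega
    unfold dg
    simp only at hw ⊢
    generalize (if v = c1 then 1 else 0) = x1 at *
    generalize (if v = c2 then 1 else 0) = x2 at *
    generalize (if v = c3 then 1 else 0) = x3 at *
    generalize (if v = c4 then 1 else 0) = x4 at *
    generalize ind L (v.1 + 1, v.2) = y1 at *
    generalize ind L (v.1 - 1, v.2) = y2 at *
    generalize ind L (v.1, v.2 + 1) = y3 at *
    generalize ind L (v.1, v.2 - 1) = y4 at *
    omega

/-- **The upper bound.** -/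
theorem upper (Q : Finset (ℤ × ℤ)) (n : ℕ) (hn : 3 ≤ n)
    (hper : ∑ v ∈ Q, dg Q v + 4 * n = 4 * Q.card) (hdeg : ∀ v ∈ Q, dg Q v ≠ 2) :
    Q.card ≤ (n - 2) ^ 2 + 4 := by
  obtain ⟨k, rfl⟩ := Nat.exists_eq_add_of_le hn
  have hk : 3 + k - 2 = k + 1 := by omega
  rw [hk]
  set L := Q.filter (fun v => 3 ≤ dg Q v) with hLdef
  have hLQ : L ⊆ Q := filter_subset _ _
  have hsplit : ∑ v ∈ Q, dg Q v = ∑ v ∈ L, dg Q v + ∑ v ∈ Q \ L, dg Q v := by
    rw [add_comm, Finset.sum_sdiff hLQ]
  have hcard : Q.card = L.card + (Q \ L).card := by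
    rw [Finset.card_sdiff_of_subset hLQ]
    have := Finset.card_le_card hLQ
    omega
  have hT : ∑ v ∈ Q \ L, dg Q v ≤ (Q \ L).card := by
    rw [Finset.card_eq_sum_ones]
    refine Finset.sum_le_sum fun v hv => ?_
    rw [mem_sdiff, hLdef, mem_filter] at hv
    have h1 := hdeg v hv.1
    have h2 : ¬ 3 ≤ dg Q v := fun h => hv.2 ⟨hv.1, h⟩
    omega
  have he : ∑ v ∈ L, dg Q v = ∑ v ∈ L, dg L v + ∑ v ∈ L, dg (Q \ L) v := by
    rw [← Finset.sum_add_distrib]
    exact Finset.sum_congr rfl fun v _ => dg_add Q L hLQ v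
  have heT : ∑ v ∈ L, dg (Q \ L) v ≤ ∑ v ∈ Q \ L, dg Q v := by
    rw [sum_symm]
    refine Finset.sum_le_sum fun v _ => ?_
    rw [dg_add Q L hLQ v]
    omega
  have hper2 := perim L
  set a := (L.image Prod.fst).card with ha
  set b := (L.image Prod.snd).card with hb
  have hab : L.card ≤ a * b := card_le_mul L
  set T := ∑ v ∈ Q \ L, dg Q v with hTdef
  set m0 := (Q \ L).card with hm0
  set e := ∑ v ∈ L, dg (Q \ L) v with hedef
  rcases Nat.lt_or_ge L.card 2 with hlt | hge
  · -- at most one cell of degree at least three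
    have h1 : ∑ v ∈ L, dg Q v ≤ 4 * L.card := by
      rw [mul_comm, ← smul_eq_mul, ← Finset.sum_const]
      exact Finset.sum_le_sum fun v _ => dg_le _ _
    have h2 : 3 * Q.card ≤ 4 * (3 + k) + 3 * L.card := by omega
    nlinarith [Nat.zero_le (k * k)]
  · -- the four corners
    obtain ⟨w, hw4, hw⟩ := corners L hge
    have h4 : 4 ≤ e := by
      rw [← hw4, hedef]
      refine Finset.sum_le_sum fun v hv => ?_
      by_cases h0 : 1 ≤ w v
      · have h1 := hw v hv h0
        have h2 := dg_add Q L hLQ v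
        have h3 : 3 ≤ dg Q v := (mem_filter.1 hv).2
        omega
      · omega
    have hne : L.Nonempty := Finset.card_pos.1 (by omega)
    have ha1 : 1 ≤ a := Finset.card_pos.2 (hne.image _)
    have hb1 : 1 ≤ b := Finset.card_pos.2 (hne.image _)
    -- `S = 2 m0 - T`
    obtain ⟨S, hS⟩ : ∃ S, S + T = 2 * m0 := ⟨2 * m0 - T, by omega⟩
    have hS4 : 4 ≤ S := by omega
    have hsum : a + b + S ≤ 2 * (3 + k) := by omega
    have hQ : Q.card ≤ S + a * b := by omega
    have hab4 : 4 * (a * b) ≤ (a + b) * (a + b) := by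
      zify
      nlinarith [sq_nonneg ((a : ℤ) - b)]
    obtain ⟨t, ht⟩ : ∃ t, t = a + b := ⟨_, rfl⟩
    rw [← ht] at hab4 hsum
    have ht2 : 2 ≤ t := by omega
    have ht3 : t ≤ 2 * k + 2 := by omega
    obtain ⟨y, hy⟩ := Nat.exists_eq_add_of_le ht2
    obtain ⟨x, hx⟩ := Nat.exists_eq_add_of_le ht3
    have h5 : 4 * Q.card ≤ 4 * S + t * t := by omega
    have h6 : 4 * S + 4 * t ≤ 4 * (2 * k + 6) := by omega
    have h7 : 0 ≤ (x : ℤ) * (2 * k + y) := by positivity
    zify at h5 h6 hx hy ⊢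
    have hx' : (x : ℤ) = 2 * k + 2 - t := by linarith
    have hy' : (y : ℤ) = t - 2 := by linarith
    rw [hx', hy'] at h7
    nlinarith

end Pool.Agent.K6.helper20.HD
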