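import Pool.Agent.K6.helper20.HD.Defs
import Pool.Agent.K6.helper20.HD.Plane

/-!
# The case `d = 2`: cells of the plane
-/

set_option autoImplicit false

open Finset

namespace Pool.Agent.K6.helper20.HD

/-- coordinates -/
def emb (n : ℕ) : (Fin 2 → Fin n) ↪ ℤ × ℤ where
  toFun x := (((x 0 : ℕ) : ℤ), ((x 1 : ℕ) : ℤ))
  inj' := by
    intro x y h
    simp only [Prod.mk.injEq, Nat.cast_inj] at h
    funext i
    fin_cases i
    · exact Fin.ext h.1
    · exact Fin.ext h.2

theorem emb_apply (n : ℕ) (x : Fin 2 → Fin n) :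
    emb n x = (((x 0 : ℕ) : ℤ), ((x 1 : ℕ) : ℤ)) := rfl

theorem adj_iff {n : ℕ} (x y : Fin 2 → Fin n) : Adj x y ↔ nbr (emb n x) (emb n y) := by
  rw [emb_apply, emb_apply]
  unfold Adj nbr
  simp only [Prod.mk.injEq]
  constructor
  · rintro ⟨i, hi, hj⟩
    fin_cases i
    · have h1 := congrArg Fin.val (hj 1 (by decide))
      simp only [Fin.zero_eta] at hi
      omega
    · have h1 := congrArg Fin.val (hj 0 (by decide))
      simp only [Fin.mk_one] at hi
      omega
  · rintro (h | h | h | h)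
    · refine ⟨0, by omega, fun j hj => ?_⟩
      fin_cases j
      · exact absurd rfl hj
      · exact Fin.ext (by simp only [Fin.mk_one]; omega)
    · refine ⟨0, by omega, fun j hj => ?_⟩
      fin_cases j
      · exact absurd rfl hj
      · exact Fin.ext (by simp only [Fin.mk_one]; omega)
    · refine ⟨1, by omega, fun j hj => ?_⟩
      fin_cases j
      · exact Fin.ext (by simp only [Fin.zero_eta]; omega)
      · exact absurd rfl hj
    · refine ⟨1, by omega, fun j hj => ?_⟩
      fin_cases j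
      · exact Fin.ext (by simp only [Fin.zero_eta]; omega)
      · exact absurd rfl hj

theorem deg_eq {n : ℕ} (P : Finset (Fin 2 → Fin n)) (v : Fin 2 → Fin n) :
    deg P v = dg (P.map (emb n)) (emb n v) := by
  classical
  rw [← dg_eq]
  unfold deg
  rw [← Finset.card_map (emb n)]
  congr 1
  ext w
  simp only [mem_map, mem_filter]
  constructor
  · rintro ⟨u, ⟨h1, h2⟩, rfl⟩
    exact ⟨⟨u, h1, rfl⟩, (adj_iff v u).1 h2⟩
  · rintro ⟨⟨u, h1, rfl⟩, h2⟩
    exact ⟨u, ⟨h1, (adj_iff v u).2 h2⟩, rfl⟩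

/-- the effect of a removal -/
theorem sum_erase (Q : Finset (ℤ × ℤ)) (v : ℤ × ℤ) (hv : v ∈ Q) :
    ∑ u ∈ Q, dg Q u = 2 * dg Q v + ∑ u ∈ Q.erase v, dg (Q.erase v) u := by
  have h1 : Q \ Q.erase v = {v} := by
    ext w
    simp only [mem_sdiff, mem_erase, mem_singleton]
    constructor
    · rintro ⟨h, h'⟩
      by_contra hne
      exact h' ⟨hne, h⟩
    · rintro rfl
      exact ⟨hv, fun h => h.1 rfl⟩
  have h2 : ∀ w, dg Q w = dg (Q.erase v) w + dg {v} w := by
    intro w
    rw [dg_add Q (Q.erase v) (erase_subset _ _) w, h1]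
  have h3 : dg {v} v = 0 := by
    unfold dg ind
    simp only [mem_singleton]
    rw [if_neg, if_neg, if_neg, if_neg]
    · intro h; have := congrArg Prod.snd h; simp only at this; omega
    · intro h; have := congrArg Prod.snd h; simp only at this; omega
    · intro h; have := congrArg Prod.fst h; simp only at this; omega
    · intro h; have := congrArg Prod.fst h; simp only at this; omega
  have h4 : ∑ u ∈ Q.erase v, dg {v} u = dg (Q.erase v) v := by
    rw [sum_symm, Finset.sum_singleton]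
  rw [← Finset.add_sum_erase Q (fun u => dg Q u) hv]
  have h5 : ∑ u ∈ Q.erase v, dg Q u =
      ∑ u ∈ Q.erase v, dg (Q.erase v) u + ∑ u ∈ Q.erase v, dg {v} u := by
    rw [← Finset.sum_add_distrib]
    exact Finset.sum_congr rfl fun u _ => h2 u
  rw [h5, h4]
  have h6 := h2 v
  omega

theorem univ_map (n : ℕ) : (univ : Finset (Fin 2 → Fin n)).map (emb n) =
    Ico (0 : ℤ) n ×ˢ Ico (0 : ℤ) n := by
  ext ⟨a, b⟩
  simp only [mem_map, mem_univ, true_and, mem_product, mem_Ico, emb_apply, Prod.mk.injEq]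
  constructor
  · rintro ⟨x, h1, h2⟩
    have := (x 0).2
    have := (x 1).2
    omega
  · rintro ⟨⟨h1, h2⟩, h3, h4⟩
    refine ⟨![⟨a.toNat, by omega⟩, ⟨b.toNat, by omega⟩], ?_, ?_⟩
    · simp only [Matrix.cons_val_zero]
      omega
    · simp only [Matrix.cons_val_one, Matrix.cons_val_fin_one]
      omega

theorem full_sum (n : ℕ) (hn : 1 ≤ n) :
    ∑ v ∈ Ico (0 : ℤ) n ×ˢ Ico (0 : ℤ) n, dg (Ico (0 : ℤ) n ×ˢ Ico (0 : ℤ) n) v + 4 * n =
      4 * (Ico (0 : ℤ) n ×ˢ Ico (0 : ℤ) n).card := by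
  set Q := Ico (0 : ℤ) n ×ˢ Ico (0 : ℤ) n with hQ
  have e1 : ∑ v ∈ Q, ind Q (v.1 + 1, v.2) = (n - 1) * n := by
    rw [sum_ind Q Q (fun v => (v.1 + 1, v.2))]
    have : Q.filter (fun v => (v.1 + 1, v.2) ∈ Q) = Ico (0 : ℤ) (n - 1) ×ˢ Ico (0 : ℤ) n := by
      ext ⟨a, b⟩
      simp only [hQ, mem_filter, mem_product, mem_Ico]
      omega
    rw [this, card_product, Int.card_Ico, Int.card_Ico]
    congr 1 <;> omega
  have e3 : ∑ v ∈ Q, ind Q (v.1, v.2 + 1) = n * (n - 1) := by
    rw [sum_ind Q Q (fun v => (v.1, v.2 + 1))]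
    have : Q.filter (fun v => (v.1, v.2 + 1) ∈ Q) = Ico (0 : ℤ) n ×ˢ Ico (0 : ℤ) (n - 1) := by
      ext ⟨a, b⟩
      simp only [hQ, mem_filter, mem_product, mem_Ico]
      omega
    rw [this, card_product, Int.card_Ico, Int.card_Ico]
    congr 1 <;> omega
  have e2 : ∑ v ∈ Q, ind Q (v.1 - 1, v.2) = ∑ v ∈ Q, ind Q (v.1 + 1, v.2) :=
    sum_shift Q Q (fun v => (v.1 - 1, v.2)) (fun v => (v.1 + 1, v.2))
      (fun v => by simp) (fun v => by simp)
  have e4 : ∑ v ∈ Q, ind Q (v.1, v.2 - 1) = ∑ v ∈ Q, ind Q (v.1, v.2 + 1) :=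
    sum_shift Q Q (fun v => (v.1, v.2 - 1)) (fun v => (v.1, v.2 + 1))
      (fun v => by simp) (fun v => by simp)
  have hc : Q.card = n * n := by
    rw [hQ, card_product, Int.card_Ico]
    simp
  rw [sum_dg, e2, e4, e1, e3, hc]
  obtain ⟨m, rfl⟩ := Nat.exists_eq_add_of_le hn
  have : 1 + m - 1 = m := by omega
  rw [this]
  ring

/-- every move leaves the number of the exposed sides unchanged -/
theorem reach_inv {n : ℕ} (hn : 1 ≤ n) (P : Finset (Fin 2 → Fin n)) (h : Reachable P) :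
    ∑ v ∈ P.map (emb n), dg (P.map (emb n)) v + 4 * n = 4 * (P.map (emb n)).card := by
  classical
  unfold Reachable at h
  induction h with
  | refl =>
    rw [univ_map]
    exact full_sum n hn
  | @tail A B _ hm ih =>
    obtain ⟨v, hv, hd, rfl⟩ := hm
    have h1 : (A.erase v).map (emb n) = (A.map (emb n)).erase (emb n v) := by
      rw [Finset.map_erase]
    have hv' : emb n v ∈ A.map (emb n) := mem_map_of_mem _ hv
    rw [deg_eq] at hd
    have h2 := sum_erase (A.map (emb n)) (emb n v) hv'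
    have h3 := Finset.card_erase_add_one hv'
    have hB : ∀ (C : Finset (Fin 2 → Fin n)), C = A.erase v →
        C.map (emb n) = (A.map (emb n)).erase (emb n v) := by
      intro C hC
      rw [hC, h1]
    rw [hB _ (by congr!)]
    omega

theorem upper2 {n : ℕ} (hn : 3 ≤ n) (P : Finset (Fin 2 → Fin n)) (h : Reachable P)
    (hm : MinimalPos P) : P.card ≤ (n - 2) ^ 2 + 4 := by
  have h1 := reach_inv (by omega) P h
  have h2 := upper (P.map (emb n)) n hn h1 (by
    intro w hw
    obtain ⟨v, hv, rfl⟩ := mem_map.1 hw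
    rw [← deg_eq]
    exact hm v hv)
  rwa [Finset.card_map] at h2

end Pool.Agent.K6.helper20.HD
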