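import Pool.Agent.K6.helper20.HD.Defs

/-!
# The cases `n = 2` and `n = 3`
-/

set_option autoImplicit false

open Finset

namespace Pool.Agent.K6.helper20.HD

variable {n d : ℕ}

theorem adj_symm {x y : Fin d → Fin n} (h : Adj x y) : Adj y x := by
  obtain ⟨i, h1, h2⟩ := h
  exact ⟨i, h1.symm, fun j hj => (h2 j hj).symm⟩

theorem adj_irrefl (x : Fin d → Fin n) : ¬ Adj x x := by
  rintro ⟨i, h1, -⟩
  omega

/-- no two elements are adjacent -/
def Indep (R : Finset (Fin d → Fin n)) : Prop := ∀ x ∈ R, ∀ y ∈ R, ¬ Adj x y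

/-- every vertex outside of `R` has a neighbour in `R` -/
def Dominating (R : Finset (Fin d → Fin n)) : Prop := ∀ x, x ∉ R → ∃ y ∈ R, Adj x y

open Classical in
/-- independent sets of vertices of degree `d` can be removed -/
theorem reach_indep (R : Finset (Fin d → Fin n)) (hR : Indep R)
    (hd : ∀ v ∈ R, deg univ v = d) : Reachable (univ \ R) := by
  induction R using Finset.induction_on with
  | empty =>
    rw [sdiff_empty]
    exact Relation.ReflTransGen.refl
  | insert v R hv ih =>
    have h1 := ih (fun x hx y hy => hR x (mem_insert_of_mem hx) y (mem_insert_of_mem hy))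
      (fun x hx => hd x (mem_insert_of_mem hx))
    refine h1.tail ⟨v, by simp [hv], ?_, ?_⟩
    · refine Eq.trans ?_ (hd v (mem_insert_self v R))
      unfold deg
      congr 1
      ext u
      simp only [mem_filter, mem_sdiff, mem_univ, true_and]
      constructor
      · exact fun h => h.2
      · exact fun h => ⟨fun hu => hR v (mem_insert_self v R) u (mem_insert_of_mem hu) h, h⟩
    · ext u
      simp only [mem_sdiff, mem_univ, true_and, mem_insert, mem_erase]
      tauto

/-! ### `n = 2` -/

/-- change one coordinate -/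
def fl (x : Fin d → Fin 2) (i : Fin d) : Fin d → Fin 2 := Function.update x i (x i + 1)

theorem fl_self (x : Fin d → Fin 2) (i : Fin d) : fl x i i = x i + 1 := by
  unfold fl
  rw [Function.update_self]

theorem fl_of_ne (x : Fin d → Fin 2) (i j : Fin d) (h : j ≠ i) : fl x i j = x j := by
  unfold fl
  rw [Function.update_of_ne h]

theorem fin2_cases (a : Fin 2) : a = 0 ∨ a = 1 := by
  revert a
  decide

theorem fin2_ne (a : Fin 2) : a + 1 ≠ a := by
  revert a
  decide

theorem fin2_adj (a b : Fin 2) : ((a : ℕ) + 1 = b ∨ (b : ℕ) + 1 = a) ↔ b = a + 1 := by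
  revert a b
  decide

theorem adj_iff_fl (x y : Fin d → Fin 2) : Adj x y ↔ ∃ i, y = fl x i := by
  constructor
  · rintro ⟨i, h1, h2⟩
    refine ⟨i, ?_⟩
    funext j
    by_cases h : j = i
    · rw [h, fl_self, (fin2_adj _ _).1 h1]
    · rw [fl_of_ne x i j h, h2 j h]
  · rintro ⟨i, rfl⟩
    exact ⟨i, (fin2_adj _ _).2 (fl_self x i), fun j hj => (fl_of_ne x i j hj).symm⟩

theorem fl_inj (x : Fin d → Fin 2) : Function.Injective (fl x) := by
  intro i j h
  by_contra hne
  have := congrFun h i
  rw [fl_self, fl_of_ne x j i hne] at this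
  exact fin2_ne _ this

theorem deg_univ2 (x : Fin d → Fin 2) : deg univ x = d := by
  classical
  unfold deg
  have : (univ : Finset (Fin d → Fin 2)).filter (Adj x) = univ.image (fl x) := by
    ext y
    simp only [mem_filter, mem_univ, true_and, mem_image]
    rw [adj_iff_fl]
    exact ⟨fun ⟨i, h⟩ => ⟨i, h.symm⟩, fun ⟨i, h⟩ => ⟨i, h.symm⟩⟩
  rw [this, Finset.card_image_of_injective _ (fl_inj x)]
  simp

/-- the degree is `d` if and only if all neighbours are present -/
theorem deg_eq_iff (P : Finset (Fin d → Fin n)) (x : Fin d → Fin n)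
    (hx : deg univ x = d) : deg P x = d ↔ ∀ y, Adj x y → y ∈ P := by
  classical
  unfold deg at *
  have hsub : P.filter (Adj x) ⊆ univ.filter (Adj x) := filter_subset_filter _ (subset_univ _)
  constructor
  · intro h y hy
    have := Finset.eq_of_subset_of_card_le hsub (by omega)
    have h2 : y ∈ univ.filter (Adj x) := mem_filter.2 ⟨mem_univ _, hy⟩
    rw [← this] at h2
    exact (mem_filter.1 h2).1
  · intro h
    refine Eq.trans ?_ hx
    congr 1
    ext y
    simp only [mem_filter, mem_univ, true_and]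
    exact ⟨fun h => h.2, fun h' => ⟨h y h', h'⟩⟩

open Classical in
theorem reach2 (P : Finset (Fin d → Fin 2)) (h : Reachable P) : Indep (univ \ P) := by
  unfold Reachable at h
  induction h with
  | refl =>
    intro x hx
    simp at hx
  | @tail A B _ hm ih =>
    obtain ⟨v, hv, hd, hB⟩ := hm
    have hB' : ∀ x, x ∈ B ↔ x ≠ v ∧ x ∈ A := by
      intro x
      rw [hB, mem_erase]
    rw [deg_eq_iff A v (deg_univ2 v)] at hd
    intro x hx y hy hxy
    simp only [mem_sdiff, mem_univ, true_and, hB', not_and] at hx hy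
    by_cases h1 : x = v
    · subst h1
      by_cases h2 : y = x
      · exact adj_irrefl x (h2 ▸ hxy)
      · exact hy h2 (hd y hxy)
    · by_cases h2 : y = v
      · subst h2
        exact hx h1 (hd x (adj_symm hxy))
      · exact ih x (by simp [hx h1]) y (by simp [hy h2]) hxy

/-- **`M(2, d) = 2 ^ d - i(Q_d)`.** -/
theorem isM_cube (d m : ℕ) : IsM 2 d m ↔
    ∃ i, IsLeast {k | ∃ R : Finset (Fin d → Fin 2), Indep R ∧ Dominating R ∧ R.card = k} i ∧
      m + i = 2 ^ d := by
  classical
  have hcard : Fintype.card (Fin d → Fin 2) = 2 ^ d := by simp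
  have hcc : ∀ P : Finset (Fin d → Fin 2), (univ \ P).card + P.card = 2 ^ d := by
    intro P
    rw [← hcard, ← Finset.card_univ, Finset.card_sdiff_add_card_eq_card (subset_univ P)]
  have h1 : ∀ P : Finset (Fin d → Fin 2), Reachable P → MinimalPos P →
      Indep (univ \ P) ∧ Dominating (univ \ P) := by
    intro P hr hm
    refine ⟨reach2 P hr, fun x hx => ?_⟩
    have hxP : x ∈ P := by
      by_contra h
      exact hx (by simp [h])
    have := hm x hxP
    rw [Ne, deg_eq_iff P x (deg_univ2 x)] at this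
    push Not at this
    obtain ⟨y, hy, hyP⟩ := this
    exact ⟨y, by simp [hyP], hy⟩
  have h2 : ∀ R : Finset (Fin d → Fin 2), Indep R → Dominating R →
      Reachable (univ \ R) ∧ MinimalPos (univ \ R) := by
    intro R hi hdom
    refine ⟨reach_indep R hi fun v _ => deg_univ2 v, fun v hv h => ?_⟩
    rw [deg_eq_iff _ v (deg_univ2 v)] at h
    obtain ⟨y, hy, hxy⟩ := hdom v (by simpa using hv)
    have := h y hxy
    simp [hy] at this
  constructor
  · rintro ⟨⟨P, hr, hm, hP⟩, hmax⟩
    obtain ⟨a1, a2⟩ := h1 P hr hm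
    refine ⟨(univ \ P).card, ⟨⟨_, a1, a2, rfl⟩, ?_⟩, by rw [← hP]; have := hcc P; omega⟩
    rintro k ⟨R, b1, b2, rfl⟩
    obtain ⟨c1, c2⟩ := h2 R b1 b2
    have h3 : (univ \ R).card ≤ m := hmax ⟨_, c1, c2, rfl⟩
    have h4 := hcc P
    have h5 := hcc R
    omega
  · rintro ⟨i, ⟨⟨R, b1, b2, hR⟩, hmin⟩, hmi⟩
    obtain ⟨c1, c2⟩ := h2 R b1 b2
    have h5 := hcc R
    refine ⟨⟨univ \ R, c1, c2, by omega⟩, ?_⟩
    rintro k ⟨P, hr, hm, rfl⟩
    obtain ⟨a1, a2⟩ := h1 P hr hm
    have h3 : i ≤ (univ \ P).card := hmin ⟨_, a1, a2, rfl⟩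
    have h4 := hcc P
    omega

/-- a dominating set has at least `2 ^ d / (d + 1)` elements -/
theorem dominating_card (R : Finset (Fin d → Fin 2)) (hR : Dominating R) :
    2 ^ d ≤ (d + 1) * R.card := by
  classical
  have h : (univ : Finset (Fin d → Fin 2)) ⊆ R.biUnion fun r => insert r (univ.image (fl r)) := by
    intro x _
    rw [mem_biUnion]
    by_cases hx : x ∈ R
    · exact ⟨x, hx, mem_insert_self _ _⟩
    · obtain ⟨y, hy, hxy⟩ := hR x hx
      obtain ⟨i, hi⟩ := (adj_iff_fl y x).1 (adj_symm hxy)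
      exact ⟨y, hy, mem_insert_of_mem (mem_image.2 ⟨i, mem_univ _, hi.symm⟩)⟩
  have h2 := Finset.card_le_card h
  rw [Finset.card_univ] at h2
  have hcard : Fintype.card (Fin d → Fin 2) = 2 ^ d := by simp
  rw [hcard] at h2
  refine h2.trans (Finset.card_biUnion_le.trans ?_)
  rw [mul_comm, ← smul_eq_mul, ← Finset.sum_const]
  refine Finset.sum_le_sum fun r _ => (Finset.card_insert_le _ _).trans ?_
  have := Finset.card_image_le (s := (univ : Finset (Fin d))) (f := fl r)
  simp only [card_univ, Fintype.card_fin] at this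
  omega

/-- **The Hamming codes.** -/
theorem hamming (k : ℕ) : ∃ R : Finset (Fin (2 ^ k - 1) → Fin 2), Indep R ∧ Dominating R ∧
    2 ^ k * R.card = 2 ^ (2 ^ k - 1) := by
  classical
  have hpos : 0 < 2 ^ k := Nat.pow_pos (by omega)
  have hce : Fintype.card (Fin (2 ^ k - 1)) = Fintype.card {v : Fin k → ZMod 2 // v ≠ 0} := by
    rw [Fintype.card_fin, Fintype.card_subtype_compl, Fintype.card_subtype_eq]
    simp [ZMod.card]
  obtain ⟨e⟩ : Nonempty (Fin (2 ^ k - 1) ≃ {v : Fin k → ZMod 2 // v ≠ 0}) :=
    ⟨Fintype.equivOfCardEq hce⟩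
  let s : (Fin (2 ^ k - 1) → Fin 2) → (Fin k → ZMod 2) := fun x =>
    ∑ j, if x j = 1 then (e j : Fin k → ZMod 2) else 0
  have hch : ∀ v : Fin k → ZMod 2, v + v = 0 := by
    intro v
    funext i
    exact CharTwo.add_self_eq_zero (v i)
  have hs : ∀ x i, s (fl x i) = s x + e i := by
    intro x i
    have h1 : ∀ y : Fin (2 ^ k - 1) → Fin 2, s y =
        (if y i = 1 then (e i : Fin k → ZMod 2) else 0) +
          ∑ j ∈ univ.erase i, if y j = 1 then (e j : Fin k → ZMod 2) else 0 := by
      intro y
      exact (Finset.add_sum_erase univ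
        (fun j => if y j = 1 then (e j : Fin k → ZMod 2) else 0) (mem_univ i)).symm
    rw [h1 (fl x i), h1 x]
    have h2 : ∑ j ∈ univ.erase i, (if fl x i j = 1 then (e j : Fin k → ZMod 2) else 0) =
        ∑ j ∈ univ.erase i, if x j = 1 then (e j : Fin k → ZMod 2) else 0 := by
      refine Finset.sum_congr rfl fun j hj => ?_
      rw [fl_of_ne x i j (mem_erase.1 hj).1]
    rw [h2, fl_self]
    rcases fin2_cases (x i) with h | h
    · rw [h]
      simp only [zero_add, if_true, Fin.isValue, zero_ne_one, if_false]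
      abel
    · rw [h]
      have : (1 + 1 : Fin 2) = 0 := by decide
      rw [this]
      simp only [Fin.isValue, zero_ne_one, if_false, if_true, zero_add]
      rw [add_comm (e i : Fin k → ZMod 2), add_assoc, hch, add_zero]
  refine ⟨univ.filter fun x => s x = 0, ?_, ?_, ?_⟩
  · intro x hx y hy hxy
    obtain ⟨i, rfl⟩ := (adj_iff_fl x y).1 hxy
    rw [mem_filter] at hx hy
    rw [hs, hx.2, zero_add] at hy
    exact (e i).2 hy.2
  · intro x hx
    have hx0 : s x ≠ 0 := fun h => hx (mem_filter.2 ⟨mem_univ _, h⟩)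
    refine ⟨fl x (e.symm ⟨s x, hx0⟩), mem_filter.2 ⟨mem_univ _, ?_⟩,
      (adj_iff_fl _ _).2 ⟨_, rfl⟩⟩
    rw [hs, e.apply_symm_apply]
    exact hch _
  · -- all fibres of `s` have the same number of elements
    have hfib : ∀ v : Fin k → ZMod 2, (univ.filter fun x => s x = v).card =
        (univ.filter fun x => s x = 0).card := by
      intro v
      by_cases hv : v = 0
      · rw [hv]
      · have hff : ∀ x : Fin (2 ^ k - 1) → Fin 2, ∀ i, fl (fl x i) i = x := by
          intro x i
          funext j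
          by_cases h : j = i
          · rw [h, fl_self, fl_self]
            generalize x i = a
            revert a
            decide
          · rw [fl_of_ne _ i j h, fl_of_ne _ i j h]
        refine Finset.card_bij' (fun x _ => fl x (e.symm ⟨v, hv⟩))
          (fun x _ => fl x (e.symm ⟨v, hv⟩)) ?_ ?_ ?_ ?_
        · intro x hx
          rw [mem_filter] at hx ⊢
          refine ⟨mem_univ _, ?_⟩
          rw [hs, e.apply_symm_apply, hx.2]
          exact hch v
        · intro x hx
          rw [mem_filter] at hx ⊢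
          refine ⟨mem_univ _, ?_⟩
          rw [hs, e.apply_symm_apply, hx.2, zero_add]
        · intro x _
          exact hff x _
        · intro x _
          exact hff x _
    have htot := Finset.card_eq_sum_card_fiberwise (s := (univ : Finset (Fin (2 ^ k - 1) → Fin 2)))
      (t := (univ : Finset (Fin k → ZMod 2))) (f := s) (fun x _ => mem_coe.2 (mem_univ _))
    rw [Finset.sum_congr rfl (fun v _ => hfib v), Finset.sum_const, smul_eq_mul,
      Finset.card_univ, Finset.card_univ] at htot
    have c1 : Fintype.card (Fin k → ZMod 2) = 2 ^ k := by simp [ZMod.card]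
    have c2 : Fintype.card (Fin (2 ^ k - 1) → Fin 2) = 2 ^ (2 ^ k - 1) := by simp
    rw [c1, c2] at htot
    exact htot.symm

end Pool.Agent.K6.helper20.HD
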