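import Mathlib

/-!
# Dismantling `[n]^d`: definitions

The cube `[n]^d` is `Fin d → Fin n`.
-/

set_option autoImplicit false

open Finset

namespace Pool.Agent.K6.helper20.HD

variable {n d : ℕ}

/-- Two unit cubes of `[n]^d` are adjacent: they differ by exactly `1` in exactly one coordinate. -/
def Adj (x y : Fin d → Fin n) : Prop :=
  ∃ i, ((x i : ℕ) + 1 = y i ∨ (y i : ℕ) + 1 = x i) ∧ ∀ j, j ≠ i → x j = y j

open Classical in
/-- The degree of `v` in the position `P`: the number of the neighbours of `v` in `P`. -/
noncomputable def deg (P : Finset (Fin d → Fin n)) (v : Fin d → Fin n) : ℕ :=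
  (P.filter (Adj v)).card

open Classical in
/-- A move: remove a vertex whose degree in the position is exactly `d`. -/
def Move (P Q : Finset (Fin d → Fin n)) : Prop := ∃ v ∈ P, deg P v = d ∧ Q = P.erase v

/-- `P` arises from `[n]^d` by finitely many moves. -/
def Reachable (P : Finset (Fin d → Fin n)) : Prop := Relation.ReflTransGen Move univ P

/-- No vertex of `P` has degree exactly `d` in `P`. -/
def MinimalPos (P : Finset (Fin d → Fin n)) : Prop := ∀ v ∈ P, deg P v ≠ d

/-- `M(n, d) = m`: the largest number of vertices of a minimal percolating set, that is of a
reachable minimal position, of `[n]^d` is `m`. -/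
def IsM (n d m : ℕ) : Prop :=
  IsGreatest {k | ∃ P : Finset (Fin d → Fin n), Reachable P ∧ MinimalPos P ∧ P.card = k} m

/-- positions given by a rank function -/
theorem reach_of_rank (ρ : (Fin d → Fin n) → ℕ) (N : ℕ)
    (hinj : ∀ u v, ρ u < N → ρ u = ρ v → u = v)
    (hdeg : ∀ v, ρ v < N → deg (univ.filter fun u => ρ v < ρ u) v = d) :
    Reachable (univ.filter fun v => N ≤ ρ v) := by
  classical
  have key : ∀ k, k ≤ N → Reachable (univ.filter fun v : Fin d → Fin n => k ≤ ρ v) := by
    intro k
    induction k with
    | zero =>
      intro _
      have : (univ.filter fun v : Fin d → Fin n => 0 ≤ ρ v) = univ := by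
        ext v
        simp
      rw [this]
      exact Relation.ReflTransGen.refl
    | succ k ih =>
      intro hk
      have h1 := ih (by omega)
      by_cases hex : ∃ v, ρ v = k
      · obtain ⟨v, hv⟩ := hex
        refine h1.tail ⟨v, ?_, ?_, ?_⟩
        · simp [hv]
        · have h2 := hdeg v (by omega)
          refine Eq.trans ?_ h2
          unfold deg
          congr 1
          ext u
          simp only [mem_filter, mem_univ, true_and]
          constructor
          · rintro ⟨h3, h4⟩
            refine ⟨?_, h4⟩
            rcases Nat.lt_or_ge (ρ v) (ρ u) with h5 | h5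
            · exact h5
            · exfalso
              have h6 : v = u := hinj v u (by omega) (by omega)
              obtain ⟨i, h7, -⟩ := h4
              rw [h6] at h7
              omega
          · rintro ⟨h3, h4⟩
            exact ⟨by omega, h4⟩
        · ext u
          simp only [mem_filter, mem_univ, true_and, mem_erase]
          constructor
          · intro h3
            exact ⟨fun h4 => by rw [h4] at h3; omega, by omega⟩
          · rintro ⟨h3, h4⟩
            rcases Nat.lt_or_ge k (ρ u) with h5 | h5
            · exact h5
            · exact absurd (hinj v u (by omega) (by omega)).symm h3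
      · have : (univ.filter fun v : Fin d → Fin n => k + 1 ≤ ρ v) =
            univ.filter fun v : Fin d → Fin n => k ≤ ρ v := by
          ext u
          simp only [mem_filter, mem_univ, true_and]
          constructor
          · intro h; omega
          · intro h
            have : ρ u ≠ k := fun h' => hex ⟨u, h'⟩
            omega
        rw [this]
        exact h1
  exact key N le_rfl

end Pool.Agent.K6.helper20.HD
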