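import Pool.Agent.K6.helper20.HD.Bridge

/-!
# The case `d = 2`: the pinwheel
-/

set_option autoImplicit false

open Finset

namespace Pool.Agent.K6.helper20.HD

/-- the time at which the cell is removed (`4 n` if it stays) -/
def rk (n x y : ℤ) : ℤ :=
  if x = 0 ∧ y ≤ n - 3 then y
  else if y = n - 1 ∧ x ≤ n - 3 then n + x
  else if x = n - 1 ∧ 2 ≤ y then 3 * n - 1 - y
  else if y = 0 ∧ 2 ≤ x then 4 * n - 1 - x
  else 4 * n

/-- the cells which stay -/
def inP (n x y : ℤ) : Prop :=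
  (1 ≤ x ∧ x ≤ n - 2 ∧ 1 ≤ y ∧ y ≤ n - 2) ∨ (x = 0 ∧ y = n - 2) ∨ (x = n - 2 ∧ y = n - 1) ∨
    (x = n - 1 ∧ y = 1) ∨ (x = 1 ∧ y = 0)

/-- the grid -/
def inG (n x y : ℤ) : Prop := 0 ≤ x ∧ x < n ∧ 0 ≤ y ∧ y < n

theorem rk_nonneg (n x y : ℤ) (hn : 3 ≤ n) (h : inG n x y) : 0 ≤ rk n x y := by
  unfold rk inG at *
  split_ifs <;> omega

theorem rk_le (n x y : ℤ) (hn : 3 ≤ n) (h : inG n x y) : rk n x y ≤ 4 * n := by
  unfold rk inG at *
  split_ifs <;> omega

theorem rk_eq (n x y : ℤ) (hn : 3 ≤ n) (h : inG n x y) : rk n x y = 4 * n ↔ inP n x y := by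
  unfold rk inG inP at *
  split_ifs with h1 h2 h3 h4 <;> constructor <;> intro h' <;> omega

theorem rk_inj (n x y x' y' : ℤ) (hn : 3 ≤ n) (h : inG n x y) (h' : inG n x' y')
    (hlt : rk n x y < 4 * n) (he : rk n x y = rk n x' y') : x = x' ∧ y = y' := by
  unfold rk inG at *
  split_ifs at hlt he <;> omega

theorem rk_cases (n x y : ℤ) (h : inG n x y) (hlt : rk n x y < 4 * n) :
    (x = 0 ∧ y ≤ n - 3 ∧ rk n x y = y) ∨ (y = n - 1 ∧ x ≤ n - 3 ∧ rk n x y = n + x) ∨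
    (x = n - 1 ∧ 2 ≤ y ∧ rk n x y = 3 * n - 1 - y) ∨
    (y = 0 ∧ 2 ≤ x ∧ rk n x y = 4 * n - 1 - x) := by
  unfold rk inG at *
  split_ifs at hlt ⊢ with h1 h2 h3 h4 <;> omega

theorem rank_deg (n x y : ℤ) (hn : 3 ≤ n) (h : inG n x y) (hlt : rk n x y < 4 * n)
    (i1 i2 i3 i4 : ℕ)
    (a1 : (inG n (x + 1) y ∧ rk n x y < rk n (x + 1) y) → i1 = 1)
    (b1 : ¬ (inG n (x + 1) y ∧ rk n x y < rk n (x + 1) y) → i1 = 0)
    (a2 : (inG n (x - 1) y ∧ rk n x y < rk n (x - 1) y) → i2 = 1)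
    (b2 : ¬ (inG n (x - 1) y ∧ rk n x y < rk n (x - 1) y) → i2 = 0)
    (a3 : (inG n x (y + 1) ∧ rk n x y < rk n x (y + 1)) → i3 = 1)
    (b3 : ¬ (inG n x (y + 1) ∧ rk n x y < rk n x (y + 1)) → i3 = 0)
    (a4 : (inG n x (y - 1) ∧ rk n x y < rk n x (y - 1)) → i4 = 1)
    (b4 : ¬ (inG n x (y - 1) ∧ rk n x y < rk n x (y - 1)) → i4 = 0) :
    i1 + i2 + i3 + i4 = 2 := by
  rcases rk_cases n x y h hlt with ⟨hx, hy, hr⟩ | ⟨hx, hy, hr⟩ | ⟨hx, hy, hr⟩ | ⟨hx, hy, hr⟩
  · have c1 : i1 = 1 := a1 (by rw [hr]; unfold inG rk at *; split_ifs <;> omega)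
    have c2 : i2 = 0 := b2 (by unfold inG; omega)
    have c3 : i3 = 1 := a3 (by rw [hr]; unfold inG rk at *; split_ifs <;> omega)
    have c4 : i4 = 0 := b4 (by rw [hr]; unfold inG rk at *; split_ifs <;> omega)
    omega
  · have c1 : i1 = 1 := a1 (by rw [hr]; unfold inG rk at *; split_ifs <;> omega)
    have c2 : i2 = 0 := b2 (by rw [hr]; unfold inG rk at *; split_ifs <;> omega)
    have c3 : i3 = 0 := b3 (by unfold inG; omega)
    have c4 : i4 = 1 := a4 (by rw [hr]; unfold inG rk at *; split_ifs <;> omega)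
    omega
  · have c1 : i1 = 0 := b1 (by unfold inG; omega)
    have c2 : i2 = 1 := a2 (by rw [hr]; unfold inG rk at *; split_ifs <;> omega)
    have c3 : i3 = 0 := b3 (by rw [hr]; unfold inG rk at *; split_ifs <;> omega)
    have c4 : i4 = 1 := a4 (by rw [hr]; unfold inG rk at *; split_ifs <;> omega)
    omega
  · have c1 : i1 = 0 := b1 (by rw [hr]; unfold inG rk at *; split_ifs <;> omega)
    have c2 : i2 = 1 := a2 (by rw [hr]; unfold inG rk at *; split_ifs <;> omega)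
    have c3 : i3 = 1 := a3 (by rw [hr]; unfold inG rk at *; split_ifs <;> omega)
    have c4 : i4 = 0 := b4 (by unfold inG; omega)
    omega

theorem min_deg (n x y : ℤ) (hn : 3 ≤ n) (h : inP n x y) (i1 i2 i3 i4 : ℕ)
    (a1 : inP n (x + 1) y → i1 = 1) (b1 : ¬ inP n (x + 1) y → i1 = 0)
    (a2 : inP n (x - 1) y → i2 = 1) (b2 : ¬ inP n (x - 1) y → i2 = 0)
    (a3 : inP n x (y + 1) → i3 = 1) (b3 : ¬ inP n x (y + 1) → i3 = 0)
    (a4 : inP n x (y - 1) → i4 = 1) (b4 : ¬ inP n x (y - 1) → i4 = 0) :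
    i1 + i2 + i3 + i4 ≠ 2 := by
  have k1 : i1 ≤ 1 := by by_cases hh : inP n (x + 1) y <;> [rw [a1 hh]; (rw [b1 hh]; omega)]
  have k2 : i2 ≤ 1 := by by_cases hh : inP n (x - 1) y <;> [rw [a2 hh]; (rw [b2 hh]; omega)]
  have k3 : i3 ≤ 1 := by by_cases hh : inP n x (y + 1) <;> [rw [a3 hh]; (rw [b3 hh]; omega)]
  have k4 : i4 ≤ 1 := by by_cases hh : inP n x (y - 1) <;> [rw [a4 hh]; (rw [b4 hh]; omega)]
  rcases h with h | h | h | h | h
  · have c1 : (x = n - 2 ∧ y ≠ 1) ∨ i1 = 1 := by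
      by_cases hh : x = n - 2 ∧ y ≠ 1
      · exact Or.inl hh
      · exact Or.inr (a1 (by unfold inP; omega))
    have c2 : (x = 1 ∧ y ≠ n - 2) ∨ i2 = 1 := by
      by_cases hh : x = 1 ∧ y ≠ n - 2
      · exact Or.inl hh
      · exact Or.inr (a2 (by unfold inP; omega))
    have c3 : (y = n - 2 ∧ x ≠ n - 2) ∨ i3 = 1 := by
      by_cases hh : y = n - 2 ∧ x ≠ n - 2
      · exact Or.inl hh
      · exact Or.inr (a3 (by unfold inP; omega))
    have c4 : (y = 1 ∧ x ≠ 1) ∨ i4 = 1 := by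
      by_cases hh : y = 1 ∧ x ≠ 1
      · exact Or.inl hh
      · exact Or.inr (a4 (by unfold inP; omega))
    omega
  · have c2 : i2 = 0 := b2 (by unfold inP; omega)
    have c3 : i3 = 0 := b3 (by unfold inP; omega)
    have c4 : i4 = 0 := b4 (by unfold inP; omega)
    omega
  · have c1 : i1 = 0 := b1 (by unfold inP; omega)
    have c2 : i2 = 0 := b2 (by unfold inP; omega)
    have c3 : i3 = 0 := b3 (by unfold inP; omega)
    omega
  · have c1 : i1 = 0 := b1 (by unfold inP; omega)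
    have c3 : i3 = 0 := b3 (by unfold inP; omega)
    have c4 : i4 = 0 := b4 (by unfold inP; omega)
    omega
  · have c1 : i1 = 0 := b1 (by unfold inP; omega)
    have c2 : i2 = 0 := b2 (by unfold inP; omega)
    have c4 : i4 = 0 := b4 (by unfold inP; omega)
    omega

/-- the rank function -/
def rho (n : ℕ) (v : Fin 2 → Fin n) : ℕ := (rk n (v 0 : ℕ) (v 1 : ℕ)).toNat

theorem inG_fin {n : ℕ} (v : Fin 2 → Fin n) : inG n ((v 0 : ℕ) : ℤ) ((v 1 : ℕ) : ℤ) := by
  have := (v 0).2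
  have := (v 1).2
  unfold inG
  omega

theorem mem_map_rho {n : ℕ} (hn : 3 ≤ n) (p : ℤ → Prop) (S : Finset (Fin 2 → Fin n))
    (hS : ∀ u, u ∈ S ↔ p (rho n u : ℤ)) (a b : ℤ) :
    (a, b) ∈ S.map (emb n) ↔ inG n a b ∧ p (rk n a b) := by
  simp only [mem_map, emb_apply, Prod.mk.injEq]
  have hc : ∀ u : Fin 2 → Fin n, (rho n u : ℤ) = rk n ((u 0 : ℕ) : ℤ) ((u 1 : ℕ) : ℤ) := by
    intro u
    have := rk_nonneg n _ _ (by omega) (inG_fin u)
    unfold rho
    omega
  constructor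
  · rintro ⟨u, h1, h2, h3⟩
    rw [hS, hc, h2, h3] at h1
    have := inG_fin u
    rw [h2, h3] at this
    exact ⟨this, h1⟩
  · rintro ⟨h1, h2⟩
    unfold inG at h1
    refine ⟨![⟨a.toNat, by omega⟩, ⟨b.toNat, by omega⟩], ?_, ?_, ?_⟩
    · rw [hS, hc]
      simp only [Matrix.cons_val_zero, Matrix.cons_val_one, Matrix.cons_val_fin_one]
      have e1 : ((a.toNat : ℕ) : ℤ) = a := by omega
      have e2 : ((b.toNat : ℕ) : ℤ) = b := by omega
      rw [e1, e2]
      exact h2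
    · simp only [Matrix.cons_val_zero]
      omega
    · simp only [Matrix.cons_val_one, Matrix.cons_val_fin_one]
      omega

theorem lower2 {n : ℕ} (hn : 3 ≤ n) : ∃ P : Finset (Fin 2 → Fin n), Reachable P ∧ MinimalPos P ∧
    P.card = (n - 2) ^ 2 + 4 := by
  have hcast : ∀ u : Fin 2 → Fin n, (rho n u : ℤ) = rk n ((u 0 : ℕ) : ℤ) ((u 1 : ℕ) : ℤ) := by
    intro u
    have := rk_nonneg n _ _ (by omega) (inG_fin u)
    unfold rho
    omega
  set P : Finset (Fin 2 → Fin n) := univ.filter fun v => 4 * n ≤ rho n v with hP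
  have hmem : ∀ a b : ℤ, (a, b) ∈ P.map (emb n) ↔ inP n a b := by
    intro a b
    rw [mem_map_rho hn (fun z => 4 * (n : ℤ) ≤ z) P (fun u => by
      rw [hP, mem_filter]
      simp only [mem_univ, true_and]
      omega)]
    constructor
    · rintro ⟨h1, h2⟩
      rw [← rk_eq n a b (by omega) h1]
      have := rk_le n a b (by omega) h1
      omega
    · intro h
      have h1 : inG n a b := by
        unfold inG
        unfold inP at h
        omega
      refine ⟨h1, ?_⟩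
      rw [(rk_eq n a b (by omega) h1).2 h]
  refine ⟨P, ?_, ?_, ?_⟩
  · refine reach_of_rank (rho n) (4 * n) ?_ ?_
    · intro u v h1 h2
      have h3 := rk_inj n _ _ _ _ (by omega) (inG_fin u) (inG_fin v)
        (by rw [← hcast]; omega) (by rw [← hcast, ← hcast, h2])
      funext i
      fin_cases i
      · exact Fin.ext (by simp only [Fin.zero_eta]; omega)
      · exact Fin.ext (by simp only [Fin.mk_one]; omega)
    · intro v hv
      rw [deg_eq]
      set S : Finset (Fin 2 → Fin n) := univ.filter fun u => rho n v < rho n u with hS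
      have hm : ∀ a b : ℤ, (a, b) ∈ S.map (emb n) ↔
          inG n a b ∧ rk n ((v 0 : ℕ) : ℤ) ((v 1 : ℕ) : ℤ) < rk n a b := by
        intro a b
        exact mem_map_rho hn (fun z => rk n ((v 0 : ℕ) : ℤ) ((v 1 : ℕ) : ℤ) < z) S (fun u => by
          rw [hS, mem_filter, ← hcast]
          simp only [mem_univ, true_and]
          omega) a b
      rw [emb_apply]
      unfold dg
      have hi1 : ∀ a b : ℤ, (inG n a b ∧ rk n ((v 0 : ℕ) : ℤ) ((v 1 : ℕ) : ℤ) < rk n a b) →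
          ind (S.map (emb n)) (a, b) = 1 := by
        intro a b h
        unfold ind
        rw [if_pos ((hm a b).2 h)]
      have hi0 : ∀ a b : ℤ, ¬ (inG n a b ∧ rk n ((v 0 : ℕ) : ℤ) ((v 1 : ℕ) : ℤ) < rk n a b) →
          ind (S.map (emb n)) (a, b) = 0 := by
        intro a b h
        unfold ind
        rw [if_neg (fun h' => h ((hm a b).1 h'))]
      exact rank_deg n _ _ (by omega) (inG_fin v) (by rw [← hcast]; omega) _ _ _ _
        (hi1 _ _) (hi0 _ _) (hi1 _ _) (hi0 _ _) (hi1 _ _) (hi0 _ _) (hi1 _ _) (hi0 _ _)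
  · intro v hv
    rw [deg_eq, emb_apply]
    unfold dg
    have hi1 : ∀ a b : ℤ, inP n a b → ind (P.map (emb n)) (a, b) = 1 := by
      intro a b h
      unfold ind
      rw [if_pos ((hmem a b).2 h)]
    have hi0 : ∀ a b : ℤ, ¬ inP n a b → ind (P.map (emb n)) (a, b) = 0 := by
      intro a b h
      unfold ind
      rw [if_neg (fun h' => h ((hmem a b).1 h'))]
    have hvP : inP n ((v 0 : ℕ) : ℤ) ((v 1 : ℕ) : ℤ) := (hmem _ _).1 (mem_map_of_mem (emb n) hv)
    exact min_deg n _ _ (by omega) hvP _ _ _ _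
      (hi1 _ _) (hi0 _ _) (hi1 _ _) (hi0 _ _) (hi1 _ _) (hi0 _ _) (hi1 _ _) (hi0 _ _)
  · rw [← Finset.card_map (emb n)]
    have hset : P.map (emb n) = (Icc (1 : ℤ) (n - 2) ×ˢ Icc (1 : ℤ) (n - 2)) ∪
        {((0 : ℤ), (n : ℤ) - 2), ((n : ℤ) - 2, (n : ℤ) - 1), ((n : ℤ) - 1, 1), (1, 0)} := by
      ext ⟨a, b⟩
      rw [hmem]
      simp only [mem_union, mem_product, mem_Icc, mem_insert, mem_singleton, Prod.mk.injEq]
      unfold inP
      tauto
    rw [hset, Finset.card_union_of_disjoint, Finset.card_product, Int.card_Icc,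
      Finset.card_insert_of_notMem, Finset.card_insert_of_notMem, Finset.card_insert_of_notMem,
      Finset.card_singleton]
    · have e : ((n : ℤ) - 2 + 1 - 1).toNat = n - 2 := by omega
      rw [e]
      ring
    · simp only [mem_singleton, Prod.mk.injEq]
      omega
    · simp only [mem_insert, mem_singleton, Prod.mk.injEq]
      omega
    · simp only [mem_insert, mem_singleton, Prod.mk.injEq]
      omega
    · rw [Finset.disjoint_left]
      rintro ⟨a, b⟩ h1 h2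
      simp only [mem_product, mem_Icc] at h1
      simp only [mem_insert, mem_singleton, Prod.mk.injEq] at h2
      omega

/-- **`M(n, 2) = (n - 2)² + 4` for `n ≥ 3`.** -/
theorem isM_two {n : ℕ} (hn : 3 ≤ n) : IsM n 2 ((n - 2) ^ 2 + 4) := by
  refine ⟨lower2 hn, ?_⟩
  rintro k ⟨P, h1, h2, rfl⟩
  exact upper2 hn P h1 h2

end Pool.Agent.K6.helper20.HD
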