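import Pool.Agent.K6.helper20.HD.Three

/-!
# The shadow argument: at least `2 ^ d` vertices are removed

A corner `c` of `[n]^d` is in the shadow of a vertex `u` when it agrees with `u` in every coordinate in
which `u` is extreme.  Each move adds at most one corner to the union of the shadows of the removed
vertices, and at a minimal position all the corners are there.
-/

set_option autoImplicit false

open Finset

namespace Pool.Agent.K6.helper20.HD

variable {n d : ℕ}

/-- the corner `c` is in the shadow of `v` -/
def InS (v : Fin d → Fin n) (c : Fin d → Bool) : Prop :=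
  ∀ i, ((v i : ℕ) = 0 → c i = false) ∧ ((v i : ℕ) + 1 = n → c i = true)

/-- one step towards the side `b`, or inwards -/
def tv (hn : 3 ≤ n) (a : Fin n) (b : Bool) : Fin n :=
  ⟨if (a : ℕ) = 0 then 1 else if (a : ℕ) + 1 = n then (a : ℕ) - 1 else
    if b = true then (a : ℕ) + 1 else (a : ℕ) - 1, by
      have := a.2
      split_ifs <;> omega⟩

theorem tv_adj (hn : 3 ≤ n) (a : Fin n) (b : Bool) :
    (a : ℕ) + 1 = tv hn a b ∨ (tv hn a b : ℕ) + 1 = a := by
  have := a.2
  simp only [tv]
  split_ifs <;> omega

theorem tv_ne_self (hn : 3 ≤ n) (a : Fin n) (b : Bool) : tv hn a b ≠ a := by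
  intro h
  have := tv_adj hn a b
  rw [h] at this
  omega

theorem tv_S (hn : 3 ≤ n) (a : Fin n) (b : Bool) :
    ((tv hn a b : ℕ) = 0 → b = false) ∧ ((tv hn a b : ℕ) + 1 = n → b = true) := by
  have := a.2
  cases b
  · refine ⟨fun _ => rfl, fun h => ?_⟩
    exfalso
    simp only [tv, Bool.false_eq_true, if_false] at h
    split_ifs at h <;> omega
  · refine ⟨fun h => ?_, fun _ => rfl⟩
    exfalso
    simp only [tv, if_true] at h
    split_ifs at h <;> omega

theorem tv_ne (hn : 3 ≤ n) (a : Fin n) (b b' : Bool) (h0 : (a : ℕ) ≠ 0) (h1 : (a : ℕ) + 1 ≠ n)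
    (hb : b ≠ b') : tv hn a b ≠ tv hn a b' := by
  intro h
  have h2 := congrArg (fun x : Fin n => (x : ℕ)) h
  simp only [tv, h0, h1, if_false] at h2
  cases b <;> cases b'
  · exact hb rfl
  · simp only [Bool.false_eq_true, if_false, if_true] at h2
    omega
  · simp only [Bool.false_eq_true, if_false, if_true] at h2
    omega
  · exact hb rfl

/-- the neighbour of `v` in the direction `i` which has `c` in its shadow -/
def tt (hn : 3 ≤ n) (v : Fin d → Fin n) (c : Fin d → Bool) (i : Fin d) : Fin d → Fin n :=
  Function.update v i (tv hn (v i) (c i))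

theorem tt_adj (hn : 3 ≤ n) (v : Fin d → Fin n) (c : Fin d → Bool) (i : Fin d) :
    Adj v (tt hn v c i) := by
  refine ⟨i, ?_, fun j hj => ?_⟩
  · unfold tt
    rw [Function.update_self]
    exact tv_adj hn _ _
  · unfold tt
    rw [Function.update_of_ne hj]

theorem tt_S (hn : 3 ≤ n) (v : Fin d → Fin n) (c : Fin d → Bool) (h : InS v c) (i : Fin d) :
    InS (tt hn v c i) c := by
  intro j
  unfold tt
  by_cases hj : j = i
  · subst hj
    rw [Function.update_self]
    exact tv_S hn _ _
  · rw [Function.update_of_ne hj]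
    exact h j

theorem tt_inj (hn : 3 ≤ n) (v : Fin d → Fin n) (c : Fin d → Bool) :
    Function.Injective (tt hn v c) := by
  intro i j h
  by_contra hne
  have h1 := congrFun h i
  unfold tt at h1
  rw [Function.update_self, Function.update_of_ne hne] at h1
  exact tv_ne_self hn _ _ h1

theorem grow (hn : 3 ≤ n) (P : Finset (Fin d → Fin n)) (v : Fin d → Fin n) (hd : deg P v = d)
    (c c' : Fin d → Bool) (hc : InS v c) (hc' : InS v c')
    (hu : ∀ u, u ∉ P → ¬ InS u c) (hu' : ∀ u, u ∉ P → ¬ InS u c') : c = c' := by
  classical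
  by_contra hne
  have hex : ∃ i, c i ≠ c' i := by
    by_contra h
    push Not at h
    exact hne (funext h)
  obtain ⟨i0, hi0⟩ := hex
  have hP : ∀ i, tt hn v c i ∈ P := by
    intro i
    by_contra h
    exact hu _ h (tt_S hn v c hc i)
  have hP' : tt hn v c' i0 ∈ P := by
    by_contra h
    exact hu' _ h (tt_S hn v c' hc' i0)
  have hint0 : (v i0 : ℕ) ≠ 0 := by
    intro h
    exact hi0 (((hc i0).1 h).trans ((hc' i0).1 h).symm)
  have hint1 : (v i0 : ℕ) + 1 ≠ n := by
    intro h
    exact hi0 (((hc i0).2 h).trans ((hc' i0).2 h).symm)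
  have hsub : insert (tt hn v c' i0) (univ.image (tt hn v c)) ⊆ P.filter (Adj v) := by
    intro y hy
    rw [mem_filter]
    rcases mem_insert.1 hy with rfl | hy
    · exact ⟨hP', tt_adj hn v c' i0⟩
    · obtain ⟨i, -, rfl⟩ := mem_image.1 hy
      exact ⟨hP i, tt_adj hn v c i⟩
  have h1 := Finset.card_le_card hsub
  have hnot : tt hn v c' i0 ∉ univ.image (tt hn v c) := by
    intro h
    obtain ⟨i, -, h2⟩ := mem_image.1 h
    have h3 := congrFun h2 i0
    unfold tt at h3
    rw [Function.update_self] at h3
    by_cases h4 : i = i0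
    · subst h4
      rw [Function.update_self] at h3
      exact tv_ne hn _ _ _ hint0 hint1 hi0 h3
    · rw [Function.update_of_ne (Ne.symm h4)] at h3
      exact tv_ne_self hn _ _ h3.symm
  rw [Finset.card_insert_of_notMem hnot, Finset.card_image_of_injective _ (tt_inj hn v c)] at h1
  simp only [card_univ, Fintype.card_fin] at h1
  unfold deg at hd
  omega

open Classical in
/-- the corners in the shadow of a removed vertex -/
noncomputable def cov (P : Finset (Fin d → Fin n)) : Finset (Fin d → Bool) :=
  univ.filter fun c => ∃ u, u ∉ P ∧ InS u c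

theorem reach_cov (hn : 3 ≤ n) (P : Finset (Fin d → Fin n)) (h : Reachable P) :
    (cov P).card ≤ (univ \ P).card := by
  classical
  unfold Reachable at h
  induction h with
  | refl =>
    have : cov (univ : Finset (Fin d → Fin n)) = ∅ := by
      unfold cov
      rw [filter_eq_empty_iff]
      rintro c - ⟨u, hu, -⟩
      exact hu (mem_univ u)
    rw [this, card_empty]
    exact Nat.zero_le _
  | @tail P Q _ hPQ ih =>
    obtain ⟨v, hvP, hd, rfl⟩ := hPQ
    have h1 : cov (P.erase v) ⊆ cov P ∪ univ.filter fun c => InS v c ∧ c ∉ cov P := by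
      intro c hc
      rw [mem_union, mem_filter]
      by_cases hcP : c ∈ cov P
      · exact Or.inl hcP
      · right
        refine ⟨mem_univ _, ?_, hcP⟩
        unfold cov at hc hcP
        rw [mem_filter] at hc hcP
        obtain ⟨-, u, hu, huc⟩ := hc
        by_cases huv : u = v
        · exact huv ▸ huc
        · exact absurd ⟨mem_univ _, u, fun h => hu (mem_erase.2 ⟨huv, h⟩), huc⟩ hcP
    have h2 : (univ.filter fun c => InS v c ∧ c ∉ cov P).card ≤ 1 := by
      rw [card_le_one]
      intro c hc c' hc'
      rw [mem_filter] at hc hc'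
      refine grow hn P v hd c c' hc.2.1 hc'.2.1 ?_ ?_
      · intro u hu hS
        exact hc.2.2 (by unfold cov; rw [mem_filter]; exact ⟨mem_univ _, u, hu, hS⟩)
      · intro u hu hS
        exact hc'.2.2 (by unfold cov; rw [mem_filter]; exact ⟨mem_univ _, u, hu, hS⟩)
    have h3 : (univ \ P.erase v).card = (univ \ P).card + 1 := by
      have : univ \ P.erase v = insert v (univ \ P) := by
        ext u
        simp only [mem_sdiff, mem_univ, true_and, mem_erase, mem_insert]
        tauto
      rw [this, card_insert_of_notMem]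
      simp [hvP]
    have h4 := (card_le_card h1).trans (card_union_le _ _)
    omega

/-- the corner as a vertex -/
def vc (hn : 3 ≤ n) (c : Fin d → Bool) : Fin d → Fin n := fun i =>
  if c i = true then ⟨n - 1, by omega⟩ else ⟨0, by omega⟩

theorem vc_S (hn : 3 ≤ n) (c : Fin d → Bool) : InS (vc hn c) c := by
  intro i
  unfold vc
  cases h : c i
  · simp only [Bool.false_eq_true, if_false, true_and, forall_const, imp_false]
    omega
  · simp only [if_true, Bool.true_eq_false, imp_false, implies_true, and_true]
    omega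

theorem min_cov (hn : 3 ≤ n) (P : Finset (Fin d → Fin n)) (hm : MinimalPos P) :
    cov P = univ := by
  classical
  rw [eq_univ_iff_forall]
  intro c
  by_contra hc
  have hu : ∀ u, u ∉ P → ¬ InS u c := by
    intro u hu hS
    exact hc (by unfold cov; rw [mem_filter]; exact ⟨mem_univ _, u, hu, hS⟩)
  have hv : vc hn c ∈ P := by
    by_contra h
    exact hu _ h (vc_S hn c)
  have hP : ∀ i, tt hn (vc hn c) c i ∈ P := by
    intro i
    by_contra h
    exact hu _ h (tt_S hn _ c (vc_S hn c) i)
  apply hm _ hv
  have hfil : P.filter (Adj (vc hn c)) = univ.image (tt hn (vc hn c) c) := by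
    ext y
    rw [mem_filter, mem_image]
    constructor
    · rintro ⟨-, i, h1, h2⟩
      refine ⟨i, mem_univ _, ?_⟩
      funext j
      unfold tt
      by_cases hj : j = i
      · subst hj
        rw [Function.update_self]
        apply Fin.ext
        have hy := (y j).2
        unfold vc tv
        unfold vc at h1
        cases h : c j
        · simp only [h, Bool.false_eq_true, if_false, if_true] at h1 ⊢
          omega
        · simp only [h, if_true] at h1 ⊢
          split_ifs <;> omega
      · rw [Function.update_of_ne hj]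
        exact h2 j hj
    · rintro ⟨i, -, rfl⟩
      exact ⟨hP i, tt_adj hn _ _ i⟩
  unfold deg
  rw [hfil, card_image_of_injective _ (tt_inj hn _ c)]
  simp

theorem card_bound (hn : 3 ≤ n) (P : Finset (Fin d → Fin n)) (h : Reachable P)
    (hm : MinimalPos P) : P.card + 2 ^ d ≤ n ^ d := by
  classical
  have h1 := reach_cov hn P h
  rw [min_cov hn P hm] at h1
  have h2 : (univ \ P).card + P.card = n ^ d := by
    rw [Finset.card_sdiff_add_card_eq_card (subset_univ P), card_univ]
    simp
  have h3 : (univ : Finset (Fin d → Bool)).card = 2 ^ d := by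
    rw [card_univ]
    simp
  omega

theorem upper_all (hn : 3 ≤ n) (d m : ℕ) (h : IsM n d m) : m + 2 ^ d ≤ n ^ d := by
  obtain ⟨⟨P, h1, h2, h3⟩, -⟩ := h
  rw [← h3]
  exact card_bound hn P h1 h2

theorem isM_three (d : ℕ) : IsM 3 d (3 ^ d - 2 ^ d) := by
  classical
  have hcard : Fintype.card (Fin d → Fin 3) = 3 ^ d := by simp
  constructor
  · refine ⟨univ \ cor d, reach_indep (cor d) cor_indep cor_deg, min3, ?_⟩
    have h1 : (univ \ cor d).card + (cor d).card = 3 ^ d := by
      rw [Finset.card_sdiff_add_card_eq_card (subset_univ (cor d)), card_univ, hcard]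
    rw [card_cor] at h1
    omega
  · rintro k ⟨P, h1, h2, rfl⟩
    have := card_bound (le_refl 3) P h1 h2
    omega

end Pool.Agent.K6.helper20.HD
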