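import Pool.Agent.K6.helper20.HD.Cube

/-!
# The case `n = 3`
-/

set_option autoImplicit false

open Finset

namespace Pool.Agent.K6.helper20.HD

variable {d : ℕ}

/-- the corners of `[3]^d` -/
def cor (d : ℕ) : Finset (Fin d → Fin 3) := univ.filter fun x => ∀ i, x i ≠ 1

theorem mem_cor (x : Fin d → Fin 3) : x ∈ cor d ↔ ∀ i, x i ≠ 1 := by
  simp [cor]

theorem card_cor (d : ℕ) : (cor d).card = 2 ^ d := by
  have h : cor d = Fintype.piFinset fun _ : Fin d => ({0, 2} : Finset (Fin 3)) := by
    ext x
    rw [mem_cor, Fintype.mem_piFinset]
    refine forall_congr' fun i => ?_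
    generalize x i = a
    revert a
    decide
  rw [h, Fintype.card_piFinset]
  simp

theorem fin3_adj (a b : Fin 3) : ((a : ℕ) + 1 = b ∨ (b : ℕ) + 1 = a) ↔
    (a = 1 ∧ b ≠ 1) ∨ (a ≠ 1 ∧ b = 1) := by
  revert a b
  decide

/-- neighbours of a vertex -/
theorem adj3 (x y : Fin d → Fin 3) (h : Adj x y) : ∃ i, y = Function.update x i (y i) ∧
    ((x i = 1 ∧ y i ≠ 1) ∨ (x i ≠ 1 ∧ y i = 1)) := by
  obtain ⟨i, h1, h2⟩ := h
  refine ⟨i, ?_, (fin3_adj _ _).1 h1⟩
  funext j
  by_cases hj : j = i
  · rw [hj, Function.update_self]
  · rw [Function.update_of_ne hj, h2 j hj]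

theorem adj3_update (x : Fin d → Fin 3) (i : Fin d) (a : Fin 3)
    (h : (x i = 1 ∧ a ≠ 1) ∨ (x i ≠ 1 ∧ a = 1)) : Adj x (Function.update x i a) := by
  refine ⟨i, ?_, fun j hj => (Function.update_of_ne hj _ _).symm⟩
  rw [Function.update_self]
  exact (fin3_adj _ _).2 h

theorem cor_indep : Indep (cor d) := by
  intro x hx y hy h
  rw [mem_cor] at hx hy
  obtain ⟨i, -, h1⟩ := adj3 x y h
  rcases h1 with h1 | h1
  · exact hx i h1.1
  · exact hy i h1.2

theorem update_inj (x : Fin d → Fin 3) (f : Fin d → Fin 3) (hf : ∀ i, f i ≠ x i) :
    Function.Injective fun i => Function.update x i (f i) := by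
  intro i j h
  by_contra hne
  have := congrFun h i
  simp only at this
  rw [Function.update_self, Function.update_of_ne hne] at this
  exact hf i this

theorem cor_deg (x : Fin d → Fin 3) (hx : x ∈ cor d) : deg univ x = d := by
  classical
  rw [mem_cor] at hx
  unfold deg
  have : (univ : Finset (Fin d → Fin 3)).filter (Adj x) =
      univ.image fun i => Function.update x i 1 := by
    ext y
    simp only [mem_filter, mem_univ, true_and, mem_image]
    constructor
    · intro h
      obtain ⟨i, h1, h2⟩ := adj3 x y h
      rcases h2 with h2 | h2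
      · exact absurd h2.1 (hx i)
      · rw [h2.2] at h1
        exact ⟨i, h1.symm⟩
    · rintro ⟨i, rfl⟩
      exact adj3_update x i 1 (Or.inr ⟨hx i, rfl⟩)
  rw [this, Finset.card_image_of_injective _ (update_inj x (fun _ => 1) fun i => (hx i).symm)]
  simp

/-- the set without the corners is minimal -/
theorem min3 : MinimalPos (univ \ cor d) := by
  classical
  intro x hx
  have hxc : ¬ ∀ i, x i ≠ 1 := by
    rw [← mem_cor]
    simpa using hx
  push Not at hxc
  obtain ⟨i0, hi0⟩ := hxc
  unfold deg
  by_cases hk : ∃ i1, i1 ≠ i0 ∧ x i1 = 1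
  · -- at least two middle coordinates: degree at least `d + 1`
    obtain ⟨i1, hi1, hx1⟩ := hk
    have hne : ∀ (i : Fin d) (a : Fin 3), (x i ≠ 1 → a = 1) →
        Function.update x i a ∈ univ \ cor d := by
      intro i a ha
      rw [mem_sdiff, mem_cor]
      refine ⟨mem_univ _, fun h => ?_⟩
      by_cases h0 : i = i0
      · have := h i1
        rw [Function.update_of_ne (by rw [h0]; exact hi1)] at this
        exact this hx1
      · have := h i0
        rw [Function.update_of_ne (Ne.symm h0)] at this
        exact this hi0
    set f : Fin d → Fin 3 := fun i => if x i = 1 then 0 else 1 with hf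
    have hfne : ∀ i, f i ≠ x i := by
      intro i
      rw [hf]
      simp only
      generalize x i = a
      revert a
      decide
    have hfadj : ∀ i, (x i = 1 ∧ f i ≠ 1) ∨ (x i ≠ 1 ∧ f i = 1) := by
      intro i
      rw [hf]
      simp only
      generalize x i = a
      revert a
      decide
    have hsub : insert (Function.update x i0 2) (univ.image fun i => Function.update x i (f i)) ⊆
        (univ \ cor d).filter (Adj x) := by
      intro y hy
      rw [mem_filter]
      rcases mem_insert.1 hy with rfl | hy
      · exact ⟨hne i0 2 (fun h => absurd hi0 h),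
          adj3_update x i0 2 (Or.inl ⟨hi0, by decide⟩)⟩
      · obtain ⟨i, -, rfl⟩ := mem_image.1 hy
        refine ⟨hne i (f i) (fun h => ?_), adj3_update x i (f i) (hfadj i)⟩
        rcases hfadj i with h' | h'
        · exact absurd h'.1 h
        · exact h'.2
    have h1 := Finset.card_le_card hsub
    rw [Finset.card_insert_of_notMem, Finset.card_image_of_injective _ (update_inj x f hfne)] at h1
    · simp only [card_univ, Fintype.card_fin] at h1
      omega
    · intro h
      obtain ⟨i, -, h2⟩ := mem_image.1 h
      have h3 := congrFun h2 i0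
      rw [Function.update_self] at h3
      by_cases h4 : i = i0
      · rw [h4, Function.update_self, hf] at h3
        simp only [hi0, if_true] at h3
        exact absurd h3 (by decide)
      · rw [Function.update_of_ne (Ne.symm h4), hi0] at h3
        exact absurd h3 (by decide)
  · -- exactly one middle coordinate: degree at most `d - 1`
    push Not at hk
    have hsub : (univ \ cor d).filter (Adj x) ⊆
        (univ.erase i0).image fun i => Function.update x i 1 := by
      intro y hy
      rw [mem_filter, mem_sdiff, mem_cor] at hy
      obtain ⟨⟨-, h1⟩, h2⟩ := hy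
      obtain ⟨i, h3, h4⟩ := adj3 x y h2
      by_cases h0 : i = i0
      · exfalso
        rw [h0] at h3 h4
        apply h1
        intro j
        by_cases hj : j = i0
        · rw [hj]
          rcases h4 with h4 | h4
          · exact h4.2
          · exact absurd hi0 h4.1
        · rw [h3, Function.update_of_ne hj]
          exact hk j hj
      · rcases h4 with h4 | h4
        · exact absurd h4.1 (hk i h0)
        · refine mem_image.2 ⟨i, mem_erase.2 ⟨h0, mem_univ _⟩, ?_⟩
          rw [← h4.2]
          exact h3.symm
    have h1 := (Finset.card_le_card hsub).trans Finset.card_image_le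
    rw [Finset.card_erase_of_mem (mem_univ _)] at h1
    simp only [card_univ, Fintype.card_fin] at h1
    have : 0 < d := Fin.pos i0
    omega

/-- every corner is removed or has a removed neighbour -/
theorem upper3 (P : Finset (Fin d → Fin 3)) (hm : MinimalPos P) :
    2 ^ d ≤ 2 * (univ \ P).card := by
  classical
  set D : (Fin d → Fin 3) → Finset (Fin d → Fin 3) := fun r =>
    (cor d).filter fun c => c = r ∨ Adj c r with hD
  have hsub : cor d ⊆ (univ \ P).biUnion D := by
    intro c hc
    rw [mem_biUnion]
    by_cases hcP : c ∈ P
    · have := hm c hcP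
      rw [Ne, deg_eq_iff P c (cor_deg c hc)] at this
      push Not at this
      obtain ⟨y, hy, hyP⟩ := this
      exact ⟨y, by simp [hyP], by rw [hD]; exact mem_filter.2 ⟨hc, Or.inr hy⟩⟩
    · exact ⟨c, by simp [hcP], by rw [hD]; exact mem_filter.2 ⟨hc, Or.inl rfl⟩⟩
  have hD2 : ∀ r, (D r).card ≤ 2 := by
    intro r
    by_cases hr : r ∈ cor d
    · have : D r ⊆ {r} := by
        intro c hc
        rw [hD, mem_filter] at hc
        rcases hc.2 with h | h
        · rw [h]; exact mem_singleton_self _
        · exact absurd h (cor_indep c hc.1 r hr)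
      have := Finset.card_le_card this
      rw [card_singleton] at this
      omega
    · have hr' : ∃ i, r i = 1 := by
        rw [mem_cor] at hr
        push Not at hr
        exact hr
      obtain ⟨i, hi⟩ := hr'
      have : D r ⊆ {Function.update r i 0, Function.update r i 2} := by
        intro c hc
        rw [hD, mem_filter, mem_cor] at hc
        rcases hc.2 with h | h
        · exact absurd (h ▸ hi) (hc.1 i)
        · obtain ⟨j, h1, h2⟩ := adj3 r c (adj_symm h)
          have hji : j = i := by
            by_contra hne
            have := hc.1 i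
            rw [h1, Function.update_of_ne (Ne.symm hne)] at this
            exact this hi
          subst hji
          rw [h1]
          have h3 := hc.1 j
          rw [mem_insert, mem_singleton]
          generalize c j = a at h3 ⊢
          have h4 : a = 0 ∨ a = 2 := by
            revert a
            decide
          rcases h4 with h4 | h4
          · left; rw [h4]
          · right; rw [h4]
      exact (Finset.card_le_card this).trans Finset.card_le_two
  have h1 := (Finset.card_le_card hsub).trans Finset.card_biUnion_le
  rw [card_cor] at h1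
  refine h1.trans ?_
  rw [mul_comm, ← smul_eq_mul, ← Finset.sum_const]
  exact Finset.sum_le_sum fun r _ => hD2 r

theorem bounds3 (d m : ℕ) (h : IsM 3 d m) :
    3 ^ d ≤ m + 2 ^ d ∧ 2 * m + 2 ^ d ≤ 2 * 3 ^ d := by
  classical
  have hcard : Fintype.card (Fin d → Fin 3) = 3 ^ d := by simp
  have hcc : ∀ P : Finset (Fin d → Fin 3), (univ \ P).card + P.card = 3 ^ d := by
    intro P
    rw [← hcard, ← Finset.card_univ, Finset.card_sdiff_add_card_eq_card (subset_univ P)]
  obtain ⟨⟨P, h1, h2, h3⟩, hmax⟩ := h
  constructor
  · have h4 : (univ \ cor d).card ≤ m :=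
      hmax ⟨_, reach_indep (cor d) cor_indep cor_deg, min3, rfl⟩
    have h5 := hcc (cor d)
    rw [card_cor] at h5
    omega
  · have h4 := upper3 P h2
    have h5 := hcc P
    omega

end Pool.Agent.K6.helper20.HD
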